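import Pool.Agent.N236.UR.Stm5

/-!
# Project UR, part 4: the position of a family (helper492, after helper160)
-/

set_option autoImplicit false

namespace Pool.Agent.N492.UR

open Pool.Agent.N236.UR Pool.Agent.N236.UB

theorem fin_eq {a b a' b' s : ℝ} (ha : 0 ≤ a) (hb : 0 ≤ b) (ha' : 0 ≤ a') (hb' : 0 ≤ b')
    (hs : 0 < s) (h1 : ¬ (s * b < a ∧ s * b' < a')) (h2 : ¬ (a < s * b ∧ a' < s * b')) :
    max (a * b') (a' * b) * s = max a (s * b) * max a' (s * b') := by
  rcases le_total a (s * b) with h | h <;> rcases le_total a' (s * b') with h' | h'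
  · rw [max_eq_right h, max_eq_right h']
    rcases eq_or_lt_of_le h with e | e
    · have h3 : a' * b ≤ a * b' := by
        rw [e]
        nlinarith [mul_le_mul_of_nonneg_right h' hb]
      rw [max_eq_left h3, e]
      ring
    · rcases eq_or_lt_of_le h' with e' | e'
      · have h3 : a * b' ≤ a' * b := by
          rw [e']
          nlinarith [mul_le_mul_of_nonneg_right h hb']
        rw [max_eq_right h3, e']
        ring
      · exact absurd ⟨e, e'⟩ h2
  · rw [max_eq_right h, max_eq_left h']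
    have h3 : a * b' ≤ a' * b := by
      nlinarith [mul_le_mul_of_nonneg_right h hb', mul_le_mul_of_nonneg_right h' hb]
    rw [max_eq_right h3]
    ring
  · rw [max_eq_left h, max_eq_right h']
    have h3 : a' * b ≤ a * b' := by
      nlinarith [mul_le_mul_of_nonneg_right h hb', mul_le_mul_of_nonneg_right h' hb]
    rw [max_eq_left h3]
    ring
  · rw [max_eq_left h, max_eq_left h']
    rcases eq_or_lt_of_le h with e | e
    · have h3 : a * b' ≤ a' * b := by
        rw [← e]
        nlinarith [mul_le_mul_of_nonneg_right h' hb]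
      rw [max_eq_right h3, ← e]
      ring
    · rcases eq_or_lt_of_le h' with e' | e'
      · have h3 : a' * b ≤ a * b' := by
          rw [← e']
          nlinarith [mul_le_mul_of_nonneg_right h hb']
        rw [max_eq_left h3, ← e']
        ring
      · exact absurd ⟨e, e'⟩ h1

theorem t_pos : S_POS := by
  intro L _ v R hR n V hn hV hH
  obtain ⟨hper, hwd⟩ := hV
  have hcong : ∀ i j : ℤ, (n : ℤ) ∣ i - j → V i = V j := by
    intro i j h
    obtain ⟨k, hk⟩ := h
    have hp : Function.Periodic V (n : ℤ) := hper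
    have h1 := (hp.int_mul k) j
    have h2 : j + k * (n : ℤ) = i := by linarith
    rw [← h2]
    exact h1
  -- the coordinates
  obtain ⟨A, hA⟩ : ∃ A : ℤ → ℝ, ∀ i, A i = max (v (V i).1) (R * v (V i).2) := ⟨_, fun _ => rfl⟩
  obtain ⟨B, hB⟩ : ∃ B : ℤ → ℝ, ∀ i, B i = v (V i).2 := ⟨_, fun _ => rfl⟩
  have hA1 : ∀ i, v (V i).1 ≤ A i := fun i => by rw [hA]; exact le_max_left _ _
  have hA2 : ∀ i, R * B i ≤ A i := fun i => by rw [hA, hB]; exact le_max_right _ _
  have hA0 : ∀ i, 0 ≤ A i := fun i => (v.nonneg _).trans (hA1 i)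
  have hB0 : ∀ i, 0 ≤ B i := fun i => by rw [hB]; exact v.nonneg _
  have hAz : ∀ i, A i = 0 → (V i).1 = 0 := by
    intro i h
    have h1 := hA1 i
    rw [h] at h1
    exact v.eq_zero.1 (le_antisymm h1 (v.nonneg _))
  have hAA : ∀ i j, ¬ (n : ℤ) ∣ i - j → A i = 0 → A j ≠ 0 := by
    intro i j hij h1 h2
    have h1 := hAz i h1
    have h2 := hAz j h2
    apply hij
    rw [← hwd i j]
    unfold wd
    rw [h1, h2]
    ring
  have hBB : ∀ i j, ¬ (n : ℤ) ∣ i - j → B i = 0 → B j ≠ 0 := by
    intro i j hij h1 h2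
    rw [hB, AbsoluteValue.eq_zero] at h1 h2
    apply hij
    rw [← hwd i j]
    unfold wd
    rw [h1, h2]
    ring
  have hpos : ∀ i, 0 < A i + B i := by
    intro i
    rcases eq_or_lt_of_le (add_nonneg (hA0 i) (hB0 i)) with h | h
    · exfalso
      have h1 : A i = 0 := by linarith [hA0 i, hB0 i]
      have h2 : B i = 0 := by linarith [hA0 i, hB0 i]
      have h1 := hAz i h1
      rw [hB, AbsoluteValue.eq_zero] at h2
      have h3 : (n : ℤ) ∣ i - (i + 1) := by
        rw [← hwd i (i + 1)]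
        unfold wd
        rw [h1, h2]
        ring
      have h4 : i - (i + 1) = -1 := by ring
      rw [h4, dvd_neg] at h3
      have := Int.le_of_dvd one_pos h3
      omega
    · exact h
  obtain ⟨t, ht⟩ : ∃ t : ℤ → ℝ, ∀ i, t i = A i / (A i + B i) := ⟨_, fun _ => rfl⟩
  have htle : ∀ i j, t j ≤ t i ↔ A j * B i ≤ A i * B j := by
    intro i j
    rw [ht, ht, div_le_div_iff₀ (hpos j) (hpos i)]
    constructor <;> intro h <;> nlinarith
  have htlt : ∀ i j, t j < t i ↔ A j * B i < A i * B j := by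
    intro i j
    rw [← not_le, ← not_le, htle j i]
  have htc : ∀ i j : ℤ, (n : ℤ) ∣ i - j → t i = t j := by
    intro i j h
    rw [ht, ht, hA, hA, hB, hB, hcong i j h]
  have hmr : ∀ i j, mr v R (V i) (V j) = max (A i * B j) (A j * B i) := by
    intro i j
    unfold mr mm
    rw [map_mul, map_mul, hA, hA, max_mul_of_nonneg _ _ (hB0 j), max_mul_of_nonneg _ _ (hB0 i),
      ← hB, ← hB]
    have e1 : R * B j * B i = R * (B i * B j) := by ring
    have e2 : R * B i * B j = R * (B i * B j) := by ring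
    rw [e1, e2, mul_comm (B i) (v (V j).1)]
    exact (max_max_max_comm _ _ _ _).symm.trans (by rw [max_self]) |>.symm
  have hmm : ∀ i j, t j ≤ t i → mr v R (V i) (V j) = A i * B j := by
    intro i j h
    rw [hmr]
    rw [htle i j] at h
    exact max_eq_left h
  have hsrt : ∀ a b c d : ℤ, Dis4 n a b c d → t b ≤ t a → t c ≤ t b → t d ≤ t c → t b = t c := by
    intro a b c d hD hba hcb hdc
    have h1 := hH a b c d hD
    rw [hmm a b hba, hmm c d hdc, hmm a c (hcb.trans hba), hmm b d (hdc.trans hcb)] at h1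
    have hAa : A a ≠ 0 := by
      intro h0
      have h2 := (htle a b).1 hba
      rw [h0, zero_mul] at h2
      have hBa : 0 < B a := by
        have := hpos a
        rw [h0, zero_add] at this
        exact this
      have h3 : A b = 0 := by
        have h4 : A b * B a = 0 := le_antisymm h2 (mul_nonneg (hA0 b) (hB0 a))
        exact (mul_eq_zero.1 h4).resolve_right hBa.ne'
      exact hAA a b hD.1 h0 h3
    have hBd : B d ≠ 0 := by
      intro h0
      have h2 := (htle c d).1 hdc
      rw [h0, mul_zero] at h2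
      have hAd : 0 < A d := by
        have := hpos d
        rw [h0, add_zero] at this
        exact this
      have h3 : B c = 0 := by
        have h4 : A d * B c = 0 := le_antisymm h2 (mul_nonneg (hA0 d) (hB0 c))
        exact (mul_eq_zero.1 h4).resolve_left hAd.ne'
      exact hBB c d hD.2.2.2.2.2 h3 h0
    have h5 : (A a * B d) * (B b * A c) = (A a * B d) * (B c * A b) := by
      linear_combination h1
    have h6 := mul_left_cancel₀ (mul_ne_zero hAa hBd) h5
    refine le_antisymm ((htle c b).2 ?_) hcb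
    linarith [mul_comm (B b) (A c), mul_comm (B c) (A b)]
  -- two classes with the same position
  obtain ⟨m, m', hmm', htm⟩ : ∃ m m' : ℤ, ¬ (n : ℤ) ∣ m - m' ∧ t m = t m' := by
    let f : Fin 4 → ℝ := fun i => t ((i : ℕ) : ℤ)
    have hσ : Monotone (f ∘ Tuple.sort f) := Tuple.monotone_sort f
    have hinc : ∀ i j : Fin 4, i ≠ j →
        ¬ (n : ℤ) ∣ (((Tuple.sort f i : Fin 4) : ℕ) : ℤ) - (((Tuple.sort f j : Fin 4) : ℕ) : ℤ) := by
      intro i j hij h
      have hne : Tuple.sort f i ≠ Tuple.sort f j := fun h' => hij ((Tuple.sort f).injective h')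
      have h1 := (Tuple.sort f i).isLt
      have h2 := (Tuple.sort f j).isLt
      have h3 := Int.eq_zero_of_abs_lt_dvd h (by rw [abs_lt]; constructor <;> omega)
      apply hne
      apply Fin.ext
      omega
    refine ⟨((Tuple.sort f 2 : Fin 4) : ℕ), ((Tuple.sort f 1 : Fin 4) : ℕ), hinc _ _ (by decide), ?_⟩
    refine hsrt ((Tuple.sort f 3 : Fin 4) : ℕ) _ _ ((Tuple.sort f 0 : Fin 4) : ℕ)
      ⟨hinc _ _ (by decide), hinc _ _ (by decide), hinc _ _ (by decide), hinc _ _ (by decide),
        hinc _ _ (by decide), hinc _ _ (by decide)⟩ ?_ ?_ ?_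
    · exact hσ (show (2 : Fin 4) ≤ 3 by decide)
    · exact hσ (show (1 : Fin 4) ≤ 2 by decide)
    · exact hσ (show (0 : Fin 4) ≤ 1 by decide)
  have hsym : ∀ i j : ℤ, ¬ (n : ℤ) ∣ i - j → ¬ (n : ℤ) ∣ j - i := by
    intro i j h h'
    exact h (by rw [← neg_sub]; exact (dvd_neg).2 h')
  have hdis : ∀ i j : ℤ, t i ≠ t j → ¬ (n : ℤ) ∣ i - j := fun i j h h' => h (htc i j h')
  have hGG' : ∀ i j, ¬ (n : ℤ) ∣ i - j → t m < t i → t m < t j → t j ≤ t i → False := by
    intro i j hij hi hj hji
    have h1 := hsrt i j m m' ⟨hij, hdis _ _ hi.ne', hdis _ _ (htm ▸ hi.ne'), hdis _ _ hj.ne',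
      hdis _ _ (htm ▸ hj.ne'), hmm'⟩ hji hj.le htm.ge
    rw [h1] at hj
    exact lt_irrefl _ hj
  have hGG : ∀ i j, ¬ (n : ℤ) ∣ i - j → t m < t i → t m < t j → False := by
    intro i j hij hi hj
    rcases le_total (t j) (t i) with h | h
    · exact hGG' i j hij hi hj h
    · exact hGG' j i (hsym _ _ hij) hj hi h
  have hLL' : ∀ i j, ¬ (n : ℤ) ∣ i - j → t i < t m → t j < t m → t i ≤ t j → False := by
    intro i j hij hi hj hji
    have h1 := hsrt m m' j i ⟨hmm', hdis _ _ hj.ne', hdis _ _ hi.ne', hdis _ _ (htm ▸ hj.ne'),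
      hdis _ _ (htm ▸ hi.ne'), hsym _ _ hij⟩ htm.ge (htm ▸ hj.le) hji
    rw [← h1, ← htm] at hj
    exact lt_irrefl _ hj
  have hLL : ∀ i j, ¬ (n : ℤ) ∣ i - j → t i < t m → t j < t m → False := by
    intro i j hij hi hj
    rcases le_total (t i) (t j) with h | h
    · exact hLL' i j hij hi hj h
    · exact hLL' j i (hsym _ _ hij) hj hi h
  have hAm : 0 < A m := by
    refine lt_of_le_of_ne (hA0 m) fun h0 => ?_
    have h1 : t m = 0 := by rw [ht, ← h0, zero_div]
    rw [htm, ht, div_eq_zero_iff] at h1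
    exact hAA m m' hmm' h0.symm (h1.resolve_right (hpos m').ne')
  have hBm : 0 < B m := by
    refine lt_of_le_of_ne (hB0 m) fun h0 => ?_
    have h1 : t m = 1 := by
      rw [ht, ← h0, add_zero]
      exact div_self hAm.ne'
    rw [htm, ht, div_eq_one_iff_eq (hpos m').ne'] at h1
    exact hBB m m' hmm' h0.symm (by linarith)
  obtain ⟨s, hs⟩ : ∃ s : ℝ, s = A m / B m := ⟨_, rfl⟩
  have hs0 : 0 < s := by rw [hs]; exact div_pos hAm hBm
  have hsR : R ≤ s := by
    rw [hs, le_div_iff₀ hBm]
    exact hA2 m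
  have hNN : ∀ i, NN v s (V i) = max (A i) (s * B i) := by
    intro i
    unfold NN
    rw [hA, ← hB, max_assoc, max_eq_right (mul_le_mul_of_nonneg_right hsR (hB0 i))]
  refine ⟨s, hs0, hsR, fun i j hij => ?_⟩
  have hgt : ∀ i, s * B i < A i → t m < t i := by
    intro i h
    rw [htlt i m]
    rw [hs, div_mul_eq_mul_div, div_lt_iff₀ hBm] at h
    exact h
  have hlt : ∀ i, A i < s * B i → t i < t m := by
    intro i h
    rw [htlt m i]
    rw [hs, div_mul_eq_mul_div, lt_div_iff₀ hBm] at h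
    exact h
  rw [hmr, hNN, hNN]
  exact fin_eq (hA0 i) (hB0 i) (hA0 j) (hB0 j) hs0
    (fun h => hGG i j hij (hgt i h.1) (hgt j h.2)) (fun h => hLL i j hij (hlt i h.1) (hlt j h.2))

end Pool.Agent.N492.UR
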